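import Mathlib

set_option autoImplicit false

open Matrix

namespace Pool.Agent.Q40.OI.HM

variable {K : Type} [Field K]

/-- congruence of matrices over different index types -/
def Cg {ι κ : Type} [Fintype ι] [DecidableEq ι] [Fintype κ] [DecidableEq κ] (B : Matrix ι ι K)
    (B' : Matrix κ κ K) : Prop :=
  ∃ (C : Matrix ι κ K) (D : Matrix κ ι K), C * D = 1 ∧ D * C = 1 ∧ Cᵀ * B * C = B'

section

variable {ι κ μ : Type} [Fintype ι] [DecidableEq ι] [Fintype κ] [DecidableEq κ]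
  [Fintype μ] [DecidableEq μ]

lemma Cg.trans {B : Matrix ι ι K} {B' : Matrix κ κ K} {B'' : Matrix μ μ K} (h : Cg B B')
    (h' : Cg B' B'') : Cg B B'' := by
  obtain ⟨C, D, h1, h2, h3⟩ := h
  obtain ⟨C', D', h1', h2', h3'⟩ := h'
  refine ⟨C * C', D' * D, ?_, ?_, ?_⟩
  · rw [Matrix.mul_assoc, ← Matrix.mul_assoc C' D' D, h1', Matrix.one_mul, h1]
  · rw [Matrix.mul_assoc, ← Matrix.mul_assoc D C C', h2, Matrix.one_mul, h2']
  · rw [← h3', ← h3, Matrix.transpose_mul]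
    simp only [Matrix.mul_assoc]

lemma Cg.reindex (B : Matrix ι ι K) (e : κ ≃ ι) : Cg B (B.submatrix e e) := by
  refine ⟨(1 : Matrix ι ι K).submatrix id e, (1 : Matrix ι ι K).submatrix e id, ?_, ?_, ?_⟩
  · rw [Matrix.submatrix_mul_equiv, Matrix.one_mul]
    rfl
  · ext i j
    simp [Matrix.mul_apply, Matrix.one_apply]
  · ext i j
    simp [Matrix.mul_apply, Matrix.one_apply]

lemma Cg.of_eq (B : Matrix ι ι K) (B' : Matrix κ κ K) (e : κ ≃ ι)
    (h : ∀ i j, B' i j = B (e i) (e j)) : Cg B B' := by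
  have : B' = B.submatrix e e := by
    ext i j
    exact h i j
  rw [this]
  exact Cg.reindex B e

lemma Cg.symm {B : Matrix ι ι K} {B' : Matrix κ κ K} (h : Cg B B') : Cg B' B := by
  obtain ⟨C, D, h1, h2, h3⟩ := h
  refine ⟨D, C, h2, h1, ?_⟩
  rw [← h3]
  calc Dᵀ * (Cᵀ * B * C) * D = (Dᵀ * Cᵀ) * B * (C * D) := by simp only [Matrix.mul_assoc]
    _ = B := by rw [← Matrix.transpose_mul, h1, Matrix.transpose_one, Matrix.one_mul, Matrix.mul_one]

lemma Cg.blockL {B : Matrix ι ι K} {B' : Matrix κ κ K} (E : Matrix μ μ K) (h : Cg B B') :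
    Cg (fromBlocks B 0 0 E) (fromBlocks B' 0 0 E) := by
  obtain ⟨C, D, h1, h2, h3⟩ := h
  refine ⟨fromBlocks C 0 0 1, fromBlocks D 0 0 1, ?_, ?_, ?_⟩
  · rw [fromBlocks_multiply]
    simp [h1]
  · rw [fromBlocks_multiply]
    simp [h2]
  · rw [fromBlocks_transpose, fromBlocks_multiply, fromBlocks_multiply]
    simp [h3]

lemma Cg.blockR {B : Matrix ι ι K} {B' : Matrix κ κ K} (E : Matrix μ μ K) (h : Cg B B') :
    Cg (fromBlocks E 0 0 B) (fromBlocks E 0 0 B') := by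
  obtain ⟨C, D, h1, h2, h3⟩ := h
  refine ⟨fromBlocks 1 0 0 C, fromBlocks 1 0 0 D, ?_, ?_, ?_⟩
  · rw [fromBlocks_multiply]
    simp [h1]
  · rw [fromBlocks_multiply]
    simp [h2]
  · rw [fromBlocks_transpose, fromBlocks_multiply, fromBlocks_multiply]
    simp [h3]

lemma Cg.of_gram (B : Matrix ι ι K) (G G' : Matrix κ κ K) (e : κ ≃ ι) (C : Matrix ι κ K)
    (h : Cᵀ * B * C = G) (hG : G' * G = 1) : Cg B G := by
  have h1 : (G' * Cᵀ * B) * C = 1 := by
    rw [← hG, ← h]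
    simp only [Matrix.mul_assoc]
  exact ⟨C, G' * Cᵀ * B, (Matrix.mul_eq_one_comm_of_equiv e.symm).2 h1, h1, h⟩

end

lemma Cg.ne_zero {ι κ : Type} [Fintype ι] [DecidableEq ι] [Fintype κ] [DecidableEq κ]
    {B : Matrix ι ι K} {d : κ → K} (hd : B.det ≠ 0) (h : Cg B (diagonal d)) (i : κ) : d i ≠ 0 := by
  obtain ⟨C, D, h1, h2, h3⟩ := h
  have hu : IsUnit B.det := isUnit_iff_ne_zero.2 hd
  have h4 : diagonal d * (D * B⁻¹ * Dᵀ) = 1 := by
    rw [← h3]
    calc Cᵀ * B * C * (D * B⁻¹ * Dᵀ) = Cᵀ * B * (C * D) * B⁻¹ * Dᵀ := by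
          simp only [Matrix.mul_assoc]
      _ = Cᵀ * (B * B⁻¹) * Dᵀ := by rw [h1, Matrix.mul_one, Matrix.mul_assoc Cᵀ]
      _ = 1 := by
        rw [Matrix.mul_nonsing_inv B hu, Matrix.mul_one, ← Matrix.transpose_mul, h2,
          Matrix.transpose_one]
  intro h5
  have h6 := congrFun (congrFun h4 i) i
  rw [Matrix.diagonal_mul, h5, zero_mul, Matrix.one_apply_eq] at h6
  exact zero_ne_one h6

/-- diagonalisation -/
lemma diag_all {N : ℕ} (h2 : (2 : K) ≠ 0) (B : Matrix (Fin N) (Fin N) K) (hB : Bᵀ = B)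
    (hd : B.det ≠ 0) : ∃ d : Fin N → K, (∀ i, d i ≠ 0) ∧ Cg B (diagonal d) := by
  have hinv : Invertible (2 : K) := invertibleOfNonzero h2
  have hs : (Matrix.toBilin' B).IsSymm := Matrix.isSymm_toBilin'_iff_isSymm.2 hB
  obtain ⟨v, hv⟩ := LinearMap.BilinForm.exists_orthogonal_basis (LinearMap.BilinForm.isSymm_iff.1 hs)
  have hg : ∀ i j, ((((Pi.basisFun K (Fin N)).toMatrix v))ᵀ * B * ((Pi.basisFun K (Fin N)).toMatrix v)) i j =
      Matrix.toBilin' B (v i) (v j) := by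
    intro i j
    rw [Matrix.toBilin'_apply', Matrix.mul_assoc]
    rfl
  have hc : Cg B (diagonal fun i => Matrix.toBilin' B (v i) (v i)) := by
    refine ⟨(Pi.basisFun K (Fin N)).toMatrix v, v.toMatrix (Pi.basisFun K (Fin N)),
      Module.Basis.toMatrix_mul_toMatrix_flip _ _, Module.Basis.toMatrix_mul_toMatrix_flip _ _, ?_⟩
    ext i j
    rw [hg]
    by_cases hij : i = j
    · subst hij
      rw [Matrix.diagonal_apply_eq]
    · rw [Matrix.diagonal_apply_ne _ hij]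
      exact hv hij
  have hN : N = Module.finrank K (Fin N → K) := by simp
  have hc2 : Cg B (diagonal fun i : Fin N => Matrix.toBilin' B (v (finCongr hN i)) (v (finCongr hN i))) := by
    refine hc.trans (Cg.of_eq _ _ (finCongr hN) ?_)
    intro i j
    rw [Matrix.diagonal_apply, Matrix.diagonal_apply]
    simp
  exact ⟨_, fun i => hc2.ne_zero hd i, hc2⟩

/-- an isotropic ternary form splits a hyperbolic plane -/
lemma tern0 (h2 : (2 : K) ≠ 0) (u x : Fin 3 → K) (hu : ∀ i, u i ≠ 0) (hx : x 0 ≠ 0)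
    (h : ∑ i, u i * x i ^ 2 = 0) : ∃ c : K, c ≠ 0 ∧
      Cg (diagonal u) (fromBlocks (fromBlocks 0 1 1 0) 0 0 (diagonal fun _ => c) :
        Matrix ((Fin 1 ⊕ Fin 1) ⊕ Fin 1) ((Fin 1 ⊕ Fin 1) ⊕ Fin 1) K) := by
  rw [Fin.sum_univ_three] at h
  have h0 := hu 0
  have h1 := hu 1
  have h2' := hu 2
  refine ⟨-(u 0 * u 1 * u 2 * x 0 ^ 2), neg_ne_zero.2 (mul_ne_zero (mul_ne_zero
    (mul_ne_zero h0 h1) h2') (pow_ne_zero 2 hx)), ?_⟩
  have he : (Fin 1 ⊕ Fin 1) ⊕ Fin 1 ≃ Fin 3 := Fintype.equivOfCardEq (by simp)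
  obtain ⟨a, ha⟩ : ∃ a : K, u 0 * x 0 * a = 1 := ⟨(u 0 * x 0)⁻¹, mul_inv_cancel₀ (mul_ne_zero h0 hx)⟩
  obtain ⟨b, hb⟩ : ∃ b : K, 2 * u 0 * x 0 ^ 2 * b = 1 :=
    ⟨(2 * u 0 * x 0 ^ 2)⁻¹, mul_inv_cancel₀ (mul_ne_zero (mul_ne_zero h2 h0) (pow_ne_zero 2 hx))⟩
  let f : Fin 3 → K := ![a - b * x 0, - (b * x 1), - (b * x 2)]
  let g : Fin 3 → K := ![0, - u 2 * x 2, u 1 * x 1]
  let C : Matrix (Fin 3) ((Fin 1 ⊕ Fin 1) ⊕ Fin 1) K := fun i j =>
    Sum.elim (Sum.elim (fun _ => x i) (fun _ => f i)) (fun _ => g i) j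
  have hC : ∀ i j, (Cᵀ * diagonal u * C) i j =
      C 0 i * u 0 * C 0 j + C 1 i * u 1 * C 1 j + C 2 i * u 2 * C 2 j := by
    intro i j
    rw [Matrix.mul_apply, Fin.sum_univ_three]
    simp only [Matrix.mul_diagonal, Matrix.transpose_apply]
  have f0 : f 0 = a - b * x 0 := rfl
  have f1 : f 1 = - (b * x 1) := rfl
  have f2 : f 2 = - (b * x 2) := rfl
  have g0 : g 0 = 0 := rfl
  have g1 : g 1 = - u 2 * x 2 := rfl
  have g2 : g 2 = u 1 * x 1 := rfl
  refine Cg.of_gram _ _ (fromBlocks (fromBlocks 0 1 1 0) 0 0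
    (diagonal fun _ => (-(u 0 * u 1 * u 2 * x 0 ^ 2))⁻¹)) he C ?_ ?_
  · ext i j
    rw [hC]
    rcases i with (i | i) | i <;> rcases j with (j | j) | j <;>
      obtain rfl := Subsingleton.elim i 0 <;> obtain rfl := Subsingleton.elim j 0 <;>
      simp only [C, Sum.elim_inl, Sum.elim_inr, fromBlocks_apply₁₁, fromBlocks_apply₁₂,
        fromBlocks_apply₂₁, fromBlocks_apply₂₂, Matrix.zero_apply, Matrix.one_apply_eq,
        Matrix.diagonal_apply_eq, f0, f1, f2, g0, g1, g2]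
    · linear_combination h
    · linear_combination ha - b * h
    · ring
    · linear_combination ha - b * h
    · linear_combination -(u 0 * a ^ 2) * hb + 2 * b * (u 0 * x 0 * a) * ha + b ^ 2 * h
    · ring
    · ring
    · ring
    · linear_combination u 1 * u 2 * h
  · have h3 : (-(u 0 * u 1 * u 2 * x 0 ^ 2)) ≠ 0 := neg_ne_zero.2 (mul_ne_zero (mul_ne_zero
      (mul_ne_zero h0 h1) h2') (pow_ne_zero 2 hx))
    have h4 : (diagonal fun _ => (-(u 0 * u 1 * u 2 * x 0 ^ 2))⁻¹) *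
        (diagonal fun _ => (-(u 0 * u 1 * u 2 * x 0 ^ 2))) = (1 : Matrix (Fin 1) (Fin 1) K) := by
      rw [Matrix.diagonal_mul_diagonal]
      simp only [inv_mul_cancel₀ h3]
      exact Matrix.diagonal_one
    rw [fromBlocks_multiply, fromBlocks_multiply]
    simp only [Matrix.zero_mul, Matrix.mul_zero, add_zero, zero_add, Matrix.one_mul, h4,
      fromBlocks_one]

lemma tern (h2 : (2 : K) ≠ 0) (u x : Fin 3 → K) (hu : ∀ i, u i ≠ 0) (hx : x ≠ 0)
    (h : ∑ i, u i * x i ^ 2 = 0) : ∃ c : K, c ≠ 0 ∧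
      Cg (diagonal u) (fromBlocks (fromBlocks 0 1 1 0) 0 0 (diagonal fun _ => c) :
        Matrix ((Fin 1 ⊕ Fin 1) ⊕ Fin 1) ((Fin 1 ⊕ Fin 1) ⊕ Fin 1) K) := by
  obtain ⟨k, hk⟩ : ∃ k, x k ≠ 0 := by
    by_contra hcon
    push Not at hcon
    exact hx (funext hcon)
  obtain ⟨c, hc, h3⟩ := tern0 h2 (u ∘ Equiv.swap 0 k) (x ∘ Equiv.swap 0 k) (fun i => hu _)
    (by rw [Function.comp_apply, Equiv.swap_apply_left]; exact hk)
    (by rw [← h]; exact Equiv.sum_comp (Equiv.swap 0 k) (fun i => u i * x i ^ 2))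
  refine ⟨c, hc, Cg.trans ?_ h3⟩
  refine Cg.of_eq _ _ (Equiv.swap 0 k) ?_
  intro i j
  rw [Matrix.diagonal_apply, Matrix.diagonal_apply]
  simp

lemma ne1 {m : ℕ} (i : Fin 1) (j : Fin m) : ¬ Fin.natAdd m i = Fin.castAdd 1 j := by
  intro h
  have := congrArg Fin.val h
  simp only [Fin.val_natAdd, Fin.val_castAdd] at this
  omega

lemma ne2 {m : ℕ} (i : Fin 1) (j : Fin m) : ¬ Fin.castAdd 1 j = Fin.natAdd m i :=
  fun h => ne1 i j h.symm

/-- the normal form -/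
def NF (m r : ℕ) (d : Fin r → K) :
    Matrix ((Fin m ⊕ Fin m) ⊕ Fin r) ((Fin m ⊕ Fin m) ⊕ Fin r) K :=
  fromBlocks (fromBlocks 0 1 1 0) 0 0 (diagonal d)

lemma nf_succ (m r : ℕ) (d : Fin r → K) :
    Cg (fromBlocks (fromBlocks 0 1 1 0 : Matrix (Fin 1 ⊕ Fin 1) (Fin 1 ⊕ Fin 1) K) 0 0 (NF m r d))
      (NF (m + 1) r d) := by
  apply Cg.symm
  let e : (Fin 1 ⊕ Fin 1) ⊕ ((Fin m ⊕ Fin m) ⊕ Fin r) ≃ (Fin (m + 1) ⊕ Fin (m + 1)) ⊕ Fin r :=
    (Equiv.sumAssoc _ _ _).symm.trans (Equiv.sumCongr (((Equiv.sumComm _ _).trans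
      (Equiv.sumSumSumComm _ _ _ _)).trans (Equiv.sumCongr finSumFinEquiv finSumFinEquiv))
      (Equiv.refl _))
  refine Cg.of_eq _ _ e ?_
  intro i j
  rcases i with (i | i) | (i | i) | i <;> rcases j with (j | j) | (j | j) | j <;>
    simp [e, NF, Matrix.one_apply, Equiv.sumSumSumComm, ne1, ne2]

/-- three entries of an isotropic ternary form -/
lemma main_step (h2 : (2 : K) ≠ 0)
    (hiso : ∀ (ι : Type) [Fintype ι] [DecidableEq ι], 5 ≤ Fintype.card ι → ∀ d : ι → K,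
      (∀ i, d i ≠ 0) → ∃ g : Fin 3 → ι, Function.Injective g ∧
        ∃ x : Fin 3 → K, x ≠ 0 ∧ ∑ i, d (g i) * x i ^ 2 = 0)
    (r : ℕ) (hr : 3 ≤ r) : ∀ (m : ℕ) (ι : Type) [Fintype ι] [DecidableEq ι],
      Fintype.card ι = 2 * m + r → ∀ d : ι → K, (∀ i, d i ≠ 0) →
        ∃ d' : Fin r → K, (∀ i, d' i ≠ 0) ∧ Cg (diagonal d) (NF m r d') := by
  intro m
  induction m with
  | zero =>
    intro ι _ _ hι d hd
    have e0 : Fin r ≃ ι := Fintype.equivOfCardEq (by rw [Fintype.card_fin, hι]; omega)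
    refine ⟨d ∘ e0, fun i => hd _, ?_⟩
    let e : (Fin 0 ⊕ Fin 0) ⊕ Fin r ≃ ι := (Equiv.emptySum _ _).trans e0
    refine Cg.of_eq _ _ e ?_
    intro i j
    rcases i with (i | i) | i
    · exact i.elim0
    · exact i.elim0
    · rcases j with (j | j) | j
      · exact j.elim0
      · exact j.elim0
      · simp [e, NF, Matrix.diagonal_apply]
  | succ m ih =>
    intro ι _ _ hι d hd
    obtain ⟨g, hg, x, hx, h0⟩ := hiso ι (by omega) d hd
    obtain ⟨c, hc, h1⟩ := tern h2 (d ∘ g) x (fun i => hd _) hx h0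
    classical
    let κ : Type := {i : ι // ¬ i ∈ Set.range g}
    let e1 : Fin 3 ⊕ κ ≃ ι := ((Equiv.ofInjective g hg).sumCongr (Equiv.refl κ)).trans
      (Equiv.sumCompl fun i => i ∈ Set.range g)
    have hκ : Fintype.card κ + 3 = Fintype.card ι := by
      have := Fintype.card_congr e1
      rw [Fintype.card_sum, Fintype.card_fin] at this
      omega
    let d2 : κ → K := fun i => d i.1
    have s1 : Cg (diagonal d) (fromBlocks (diagonal (d ∘ g)) 0 0 (diagonal d2)) := by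
      refine Cg.of_eq _ _ e1 ?_
      intro i j
      rw [Matrix.diagonal_apply, Matrix.fromBlocks_diagonal, Matrix.diagonal_apply]
      by_cases hij : i = j
      · subst hij
        rw [if_pos rfl, if_pos rfl]
        rcases i with i | i
        · rfl
        · rfl
      · rw [if_neg hij, if_neg (fun h => hij (e1.injective h))]
    have s2 := s1.trans (h1.blockL (diagonal d2))
    have s3 : Cg (diagonal d) (fromBlocks (fromBlocks 0 1 1 0 : Matrix (Fin 1 ⊕ Fin 1)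
        (Fin 1 ⊕ Fin 1) K) 0 0 (diagonal (Sum.elim (fun _ : Fin 1 => c) d2))) := by
      refine s2.trans (Cg.of_eq _ _ (Equiv.sumAssoc _ _ _).symm ?_)
      intro i j
      rcases i with i | i | i <;> rcases j with j | j | j <;>
        simp [Matrix.diagonal_apply]
    obtain ⟨d', hd', h4⟩ := ih (Fin 1 ⊕ κ) (by
      rw [Fintype.card_sum, Fintype.card_fin]; omega) (Sum.elim (fun _ : Fin 1 => c) d2) (by
      rintro (i | i)
      · exact hc
      · exact hd _)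
    exact ⟨d', hd', (s3.trans (h4.blockR _)).trans (nf_succ m r d')⟩

end Pool.Agent.Q40.OI.HM
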