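import Pool.Agent.Q282.OI.Stm
import Pool.Agent.Q40.OI.HMa

set_option autoImplicit false

open Matrix

namespace Pool.Agent.Q40.OI.HM

lemma iso5 (hISO3 : Pool.Agent.Q282.OI.S_ISO3) (ℓ : ℕ) [hp : Fact ℓ.Prime] (hℓ : ℓ ≠ 2) (ι : Type)
    [Fintype ι] [DecidableEq ι] (hι : 5 ≤ Fintype.card ι) (d : ι → ℚ_[ℓ]) (hd : ∀ i, d i ≠ 0) :
    ∃ g : Fin 3 → ι, Function.Injective g ∧
      ∃ x : Fin 3 → ℚ_[ℓ], x ≠ 0 ∧ ∑ i, d (g i) * x i ^ 2 = 0 := by
  have hl0 : (ℓ : ℚ_[ℓ]) ≠ 0 := by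
    exact_mod_cast hp.out.ne_zero
  obtain ⟨y, hy⟩ := Fintype.exists_lt_card_fiber_of_mul_lt_card
    (fun i : ι => decide (Even (d i).valuation)) (n := 2) (by
      rw [Fintype.card_bool]; omega)
  rw [Finset.two_lt_card] at hy
  obtain ⟨a, ha, b, hb, c, hc, hab, hac, hbc⟩ := hy
  rw [Finset.mem_filter_univ] at ha hb hc
  let g : Fin 3 → ι := ![a, b, c]
  have hg : Function.Injective g := by
    intro i j h
    fin_cases i <;> fin_cases j <;> simp_all [g]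
  have hgv : ∀ i, decide (Even (d (g i)).valuation) = y := by
    intro i
    fin_cases i
    · exact ha
    · exact hb
    · exact hc
  obtain ⟨a0, k, hk⟩ : ∃ (a0 : ℤ) (k : Fin 3 → ℤ), ∀ i, (d (g i)).valuation = 2 * k i + a0 := by
    cases y with
    | true =>
      have h1 : ∀ i, ∃ r, (d (g i)).valuation = 2 * r + 0 := by
        intro i
        obtain ⟨r, hr⟩ := of_decide_eq_true (hgv i)
        exact ⟨r, by rw [hr]; ring⟩
      choose k hk using h1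
      exact ⟨0, k, hk⟩
    | false =>
      have h1 : ∀ i, ∃ r, (d (g i)).valuation = 2 * r + 1 := by
        intro i
        obtain ⟨r, hr⟩ := Int.not_even_iff_odd.1 (of_decide_eq_false (hgv i))
        exact ⟨r, hr⟩
      choose k hk using h1
      exact ⟨1, k, hk⟩
  obtain ⟨y', hy', h2⟩ := hISO3 ℓ hℓ (fun i => d (g i) * (ℓ : ℚ_[ℓ]) ^ (-(d (g i)).valuation)) (by
    intro i
    rw [norm_mul, Padic.norm_eq_zpow_neg_valuation (hd _), Padic.norm_p_zpow, neg_neg, ← zpow_add₀,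
      neg_add_cancel, zpow_zero]
    exact_mod_cast hp.out.ne_zero)
  refine ⟨g, hg, fun i => (ℓ : ℚ_[ℓ]) ^ (-k i) * y' i, ?_, ?_⟩
  · intro h
    apply hy'
    funext i
    have := congrFun h i
    exact (mul_eq_zero.1 this).resolve_left (zpow_ne_zero _ hl0)
  · have h3 : ∑ i, d (g i) * ((ℓ : ℚ_[ℓ]) ^ (-k i) * y' i) ^ 2 =
        (ℓ : ℚ_[ℓ]) ^ a0 * ∑ i, d (g i) * (ℓ : ℚ_[ℓ]) ^ (-(d (g i)).valuation) * y' i ^ 2 := by
      rw [Finset.mul_sum]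
      refine Finset.sum_congr rfl fun i _ => ?_
      have h4 : ((ℓ : ℚ_[ℓ]) ^ (-k i)) ^ 2 = (ℓ : ℚ_[ℓ]) ^ a0 * (ℓ : ℚ_[ℓ]) ^ (-(d (g i)).valuation) := by
        rw [← _root_.zpow_natCast, ← _root_.zpow_mul, ← zpow_add₀ hl0, hk i]
        congr 1
        push_cast
        ring
      rw [mul_pow, h4]
      ring
    rw [h3, h2, mul_zero]

/-- HM -/
theorem t (hISO3 : Pool.Agent.Q282.OI.S_ISO3) : Pool.Agent.Q282.OI.S_HM := by
  intro ℓ hp hℓ m r N hr hN B hB hdet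
  have h2 : (2 : ℚ_[ℓ]) ≠ 0 := two_ne_zero
  obtain ⟨d, hd, h1⟩ := diag_all h2 B hB hdet
  obtain ⟨d', hd', h3⟩ := main_step h2 (fun ι _ _ hι d hd => iso5 hISO3 ℓ hℓ ι hι d hd) r hr m
    (Fin N) (by rw [Fintype.card_fin, hN]) d hd
  obtain ⟨C, D, h4, h5, h6⟩ := h1.trans h3
  exact ⟨C, D, d', h4, h5, hd', h6⟩

end Pool.Agent.Q40.OI.HM
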